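import Pool.Agent.Lib.MP_4d246d_lc.Grid.Final

/-!
# Products of simplices whose groups are not known in advance

The known part of the division into groups is a partial function `h`. The faces on which the
constraints of unknown group stay tight form a grid with known structure. When its majority sink is
left by an improving edge, the group of one more constraint becomes known.
-/

namespace Pool.Agent.Simplex.Tableau

open Pool.Agent.MP4d246d.Blind Pool.Agent.MP4d246d.Grid

namespace LP

variable {m n r : ℕ} {h : Fin m → Option (Fin r)} {g : Fin m → Fin r}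

/-- the known members of group `i` -/
abbrev KVal (h : Fin m → Option (Fin r)) (i : Fin r) : Type := {l : Fin m // h l = some i}

/-- the name of a vertex of the known grid -/
def kname (v : Vtx (KVal h)) : Name m := Finset.univ.filter fun l => ∀ i, l ≠ (v i).1

theorem mem_kname {v : Vtx (KVal h)} {l : Fin m} : l ∈ kname v ↔ ∀ i, l ≠ (v i).1 := by
  simp [kname]

/-- `g` agrees with what is known -/
def Ext (h : Fin m → Option (Fin r)) (g : Fin m → Fin r) : Prop := ∀ l i, h l = some i → g l = i

/-- the known grid is a subgrid -/
def up (hg : Ext h g) (v : Vtx (KVal h)) : Vtx (Val g) := fun i => ⟨(v i).1, hg _ _ (v i).2⟩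

/-- moves of the known grid as moves of the grid -/
def upm (hg : Ext h g) (p : Mv (KVal h)) : Mv (Val g) := ⟨p.1, ⟨p.2.1, hg _ _ p.2.2⟩⟩

theorem name_up (hg : Ext h g) (v : Vtx (KVal h)) : name (up hg v) = kname v := rfl

theorem up_mv (hg : Ext h g) (v : Vtx (KVal h)) (p : Mv (KVal h)) :
    up hg (mv v p) = mv (up hg v) (upm hg p) := by
  funext i
  by_cases hi : i = p.1
  · subst hi
    apply Subtype.ext
    show (mv v p p.1).1 = (mv (up hg v) (upm hg p) (upm hg p).1).1
    rw [mv_self]
    simp [mv, upm]
  · apply Subtype.ext
    show (mv v p i).1 = (mv (up hg v) (upm hg p) i).1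
    rw [mv_ne (p := upm hg p) hi]
    simp [mv, Function.update_of_ne hi, up]

theorem up_ne (hg : Ext h g) {v : Vtx (KVal h)} {p : Mv (KVal h)} :
    (upm hg p).2 ≠ up hg v (upm hg p).1 ↔ p.2 ≠ v p.1 := by
  constructor
  · intro hne he
    have h1 := congrArg Subtype.val he
    exact hne (Subtype.ext h1)
  · intro hne he
    have h1 := congrArg Subtype.val he
    exact hne (Subtype.ext h1)

open Classical in
/-- the orientation of the known grid that belongs to a structure on names -/
noncomputable def kgri (o : Name m → Finset (Name m)) : Ori (KVal h) := fun v =>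
  Finset.univ.filter fun p => p.2 ≠ v p.1 ∧ kname (mv v p) ∈ o (kname v)

theorem mem_kgri {o : Name m → Finset (Name m)} {v : Vtx (KVal h)} {p : Mv (KVal h)} :
    p ∈ kgri o v ↔ p.2 ≠ v p.1 ∧ kname (mv v p) ∈ o (kname v) := by
  classical
  simp [kgri]

theorem mem_kgri_up (hg : Ext h g) {o : Name m → Finset (Name m)} {v : Vtx (KVal h)}
    {p : Mv (KVal h)} : p ∈ kgri o v ↔ upm hg p ∈ gri o (up hg v) := by
  rw [mem_kgri, mem_gri, up_ne, ← up_mv, name_up, name_up]

variable {P : LP m n}

theorem IsProduct.kvalid (hP : P.IsProduct g) (hg : Ext h g) :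
    Pool.Agent.MP4d246d.Grid.Valid (kgri (h := h) P.nview) fun v => P.val (kname v) := by
  have hV := hP.valid
  refine ⟨fun hp => (mem_kgri.1 hp).1, fun {v p} hp => ?_, fun {v w} hvw => ?_⟩
  · have h1 := hV.up ((mem_kgri_up hg).1 hp)
    rw [← up_mv, name_up, name_up] at h1
    exact h1
  · have h1 := hV.top (v := up hg v) (w := up hg w) (fun i hi hmem => ?_)
    · rw [name_up, name_up] at h1
      exact h1
    · refine hvw i (fun he => hi ?_) ((mem_kgri_up hg).2 hmem)
      have h1 := congrArg Subtype.val he
      exact Subtype.ext h1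

/-- `o` comes from a product of simplices whose division into groups agrees with `h` -/
def Comp (n : ℕ) (h : Fin m → Option (Fin r)) (o : Name m → Finset (Name m)) : Prop :=
  ∃ (g : Fin m → Fin r) (P : LP m n), Ext h g ∧ P.IsProduct g ∧ P.nview = o

/-- few vertices with a majority answer come from one linear program -/
theorem khc {q : ℕ} {F : Finset (Name m → Finset (Name m))} (hF : ∀ o ∈ F, Comp n h o)
    (hne : F.Nonempty) (T : Finset (Vtx (KVal h))) (hT : T.card ≤ q)
    (hg : ∀ v ∈ T, Good q F (kname v)) :
    ∃ o obj, Pool.Agent.MP4d246d.Grid.Valid (κ := KVal h) o obj ∧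
      ∀ v ∈ T, o v = kgri (M q F) v := by
  classical
  obtain ⟨o, ho, hag⟩ := exists_agree hne (T.image kname) (by
    intro w hw
    obtain ⟨v, hv, rfl⟩ := Finset.mem_image.1 hw
    exact hg v hv) (Finset.card_image_le.trans hT)
  obtain ⟨g, P, hgE, hP, rfl⟩ := hF o ho
  refine ⟨kgri P.nview, _, hP.kvalid hgE, fun v hv => ?_⟩
  ext p
  rw [mem_kgri, mem_kgri, hag (kname v) (Finset.mem_image_of_mem _ hv)]

/-- the constraints of unknown group -/
def locked (h : Fin m → Option (Fin r)) : Finset (Fin m) := Finset.univ.filter fun l => h l = none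

/-- the constraint that leaves and the group of a move can be read off from the names -/
theorem move_of_name {v : Vtx (Val g)} {p : Mv (Val g)} (hp : p.2 ≠ v p.1) :
    (∀ l, l ∈ name v → l ∉ name (mv v p) → l = p.2.1) ∧
      (∀ i, (v i).1 ∈ name (mv v p) → i = p.1) ∧
      p.2.1 ∈ name v ∧ p.2.1 ∉ name (mv v p) ∧ (v p.1).1 ∈ name (mv v p) := by
  refine ⟨fun l hl hl' => ?_, fun i hi => ?_, val_mem_name hp, val_not_mem_name_mv, ?_⟩
  · by_contra hne
    exact hl' (mem_name_mv hl hne)
  · by_contra hne
    rw [mem_name] at hi
    exact hi i (by rw [mv_ne hne])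
  · rw [mem_name]
    intro j hj
    by_cases hjp : j = p.1
    · subst hjp
      rw [mv_self] at hj
      exact hp (Subtype.ext hj.symm)
    · rw [mv_ne hjp] at hj
      have h1 : g (v p.1).1 = p.1 := (v p.1).2
      have h2 : g (v j).1 = j := (v j).2
      rw [hj, h2] at h1
      exact hjp h1

/-- one phase after the other; each one makes the candidates fewer or the known part larger -/
theorem any_phase {q : ℕ} (hq : 2 ≤ q) (hqm : m ≤ q) :
    ∀ (s p c : ℕ) (h : Fin m → Option (Fin r)) (F : Finset (Name m → Finset (Name m)))
      (V : Name m), p + c = s → (locked h).card ≤ c → (∀ o ∈ F, Comp n h o) →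
      (∃ v : Vtx (KVal h), V = kname v) → (∃ S, ∀ o ∈ F, o V = S) →
      F.card * (q - 1) ^ p < q ^ p → Win (len r * s) F V := by
  classical
  intro s
  induction s with
  | zero =>
    intro p c h F v hs _ _ _ _ hF
    obtain rfl : p = 0 := by omega
    have : F = ∅ := by
      rw [← Finset.card_eq_zero]
      simpa using hF
    subst this
    exact Win.of_base _ (by simp)
  | succ s ihs0 =>
    intro p c h F V hs hc hcomp hVn hV hF
    rcases F.eq_empty_or_nonempty with rfl | hne
    · exact Win.of_base _ (by simp)
    obtain ⟨v, rfl⟩ := hVn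
    have hp0 : p ≠ 0 := by
      rintro rfl
      have : F.card = 0 := by simpa using hF
      exact hne.ne_empty (Finset.card_eq_zero.1 this)
    obtain ⟨p, rfl⟩ : ∃ p', p = p' + 1 := ⟨p - 1, by omega⟩
    have hnear := near_card (κ := KVal h) (Good := fun v => Good q F (kname v))
      (a := kgri (M q F)) (K := q) hq (fun i => (Fintype.card_subtype_le _).trans (by simpa using hqm))
      (khc hcomp hne) _ (fun _ => Finset.univ) rfl v (fun i => Finset.mem_univ _)
    have hnear' := hnear.mono (len_mono (by
      simpa using Finset.card_le_univ (free (κ := KVal h) (fun _ => Finset.univ))))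
    have key : ∀ (t : ℕ) (u : Vtx (KVal h)) (G : Finset (Name m → Finset (Name m))), G ⊆ F →
        (∃ S, ∀ o ∈ G, o (kname u) = S) →
        Near (fun v => Good q F (kname v)) (kgri (M q F)) (fun _ => Finset.univ) t u →
        Win (t + len r * s) G (kname u) := by
      intro t
      -- the parts that do not depend on `t`
      have hstop : ∀ (t : ℕ) (u : Vtx (KVal h)) (G : Finset (Name m → Finset (Name m))), G ⊆ F →
          ∀ S, (∀ o ∈ G, o (kname u) = S) → Maj q F (kname u) S →
          (¬ Good q F (kname u) ∨ Sink (kgri (M q F)) (fun _ => Finset.univ) u) →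
          Win (t + len r * s) G (kname u) := by
        intro t u G hG S hS hM hw
        have hg : Good q F (kname u) := ⟨S, hM⟩
        have hMS : M q F (kname u) = S := (M_spec hg).unique hq hM
        rcases hw with hw | hw
        · exact absurd hg hw
        rcases S.eq_empty_or_nonempty with rfl | ⟨T, hT⟩
        · exact Win.of_base _ hS
        rcases G.eq_empty_or_nonempty with rfl | ⟨o₀, ho₀⟩
        · exact Win.of_base _ (by simp)
        -- the new constraint and its group
        have hmove : ∀ o ∈ G, ∀ (g : Fin m → Fin r) (P : LP m n) (hgE : Ext h g),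
            P.IsProduct g → P.nview = o → ∃ p : Mv (Val g), p.2 ≠ up hgE u p.1 ∧
              name (mv (up hgE u) p) = T := by
          intro o ho g P hgE hP hPo
          have h1 : T ∈ P.nview (name (up hgE u)) := by
            rw [name_up, hPo, hS o ho]
            exact hT
          obtain ⟨p, hp, hpT⟩ := hP.mem_nview h1
          exact ⟨p, (mem_gri.1 hp).1, hpT⟩
        obtain ⟨g₀, P₀, hgE₀, hP₀, hPo₀⟩ := hcomp o₀ (hG ho₀)
        obtain ⟨p₀, hp₀, hpT₀⟩ := hmove o₀ ho₀ g₀ P₀ hgE₀ hP₀ hPo₀
        obtain ⟨hA, hB, hC, hD, hE⟩ := move_of_name hp₀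
        rw [hpT₀] at hA hB hD hE
        rw [name_up] at hA hC
        have hall : ∀ o ∈ G, ∀ (g : Fin m → Fin r) (P : LP m n) (_ : Ext h g),
            P.IsProduct g → P.nview = o → g p₀.2.1 = p₀.1 := by
          intro o ho g P hgE hP hPo
          obtain ⟨p, hp, hpT⟩ := hmove o ho g P hgE hP hPo
          obtain ⟨_, _, hC', hD', hE'⟩ := move_of_name hp
          rw [hpT] at hD' hE'
          rw [name_up] at hC'
          have h1 : p.2.1 = p₀.2.1 := hA _ hC' hD'
          have h2 : p.1 = p₀.1 := hB p.1 hE'
          rw [← h1, ← h2]
          exact p.2.2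
        have hnone : h p₀.2.1 = none := by
          rcases hh : h p₀.2.1 with _ | i
          · rfl
          exfalso
          have h1 : g₀ p₀.2.1 = i := hgE₀ _ _ hh
          have h2 : g₀ p₀.2.1 = p₀.1 := p₀.2.2
          obtain rfl : i = p₀.1 := h1.symm.trans h2
          let p' : Mv (KVal h) := ⟨p₀.1, ⟨p₀.2.1, hh⟩⟩
          have h3 : upm hgE₀ p' = p₀ := rfl
          have h4 : kname (mv u p') = T := by
            rw [← name_up hgE₀, up_mv, h3]
            exact hpT₀
          refine hw p' ?_ (Finset.mem_univ _)
          rw [mem_kgri]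
          refine ⟨(up_ne hgE₀).1 hp₀, ?_⟩
          rw [h4, hMS]
          exact hT
        set h' : Fin m → Option (Fin r) := Function.update h p₀.2.1 (some p₀.1) with hh'
        have hlock : (locked h').card + 1 ≤ (locked h).card := by
          have h1 : locked h' = (locked h).erase p₀.2.1 := by
            ext l
            simp only [locked, Finset.mem_filter, Finset.mem_univ, true_and, Finset.mem_erase]
            by_cases hl : l = p₀.2.1
            · subst hl
              simp [hh']
            · simp [hh', hl]
          have h2 : p₀.2.1 ∈ locked h := by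
            simp [locked, hnone]
          rw [h1, Finset.card_erase_of_mem h2]
          have := Finset.card_pos.2 ⟨_, h2⟩
          omega
        have hne' : ∀ i, (u i).1 ≠ p₀.2.1 := by
          intro i hi
          have := (u i).2
          rw [hi, hnone] at this
          cases this
        have hold : ∀ l, l ≠ p₀.2.1 → h' l = h l := fun l hl => by
          rw [hh', Function.update_of_ne hl]
        refine (ihs0 (p + 1) (c - 1) h' G (kname u) (by omega) (by omega) (fun o ho => ?_) ?_
          ⟨S, hS⟩ ?_).mono (by omega)
        · obtain ⟨g, P, hgE, hP, hPo⟩ := hcomp o (hG ho)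
          refine ⟨g, P, fun l i hli => ?_, hP, hPo⟩
          by_cases hl : l = p₀.2.1
          · subst hl
            rw [hh', Function.update_self] at hli
            rw [hall o ho g P hgE hP hPo]
            exact Option.some.inj hli
          · rw [hold l hl] at hli
            exact hgE l i hli
        · refine ⟨fun i => ⟨(u i).1, by rw [hold _ (hne' i)]; exact (u i).2⟩, ?_⟩
          ext l
          rw [mem_kname, mem_kname]
        · exact (Nat.mul_le_mul_right _ (Finset.card_le_card hG)).trans_lt hF
      have hsmall : ∀ (t : ℕ) (u : Vtx (KVal h)) (G : Finset (Name m → Finset (Name m))), G ⊆ F →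
          ∀ S, (∀ o ∈ G, o (kname u) = S) → ¬ Maj q F (kname u) S →
          Win (t + len r * s) G (kname u) := by
        intro t u G hG S hS hM
        exact (ihs0 p c h G (kname u) (by omega) hc (fun o ho => hcomp o (hG ho)) ⟨u, rfl⟩ ⟨S, hS⟩
          (small_step hq hG hS hM hF)).mono (by omega)
      induction t with
      | zero =>
        intro u G hG ⟨S, hS⟩ hw
        by_cases hM : Maj q F (kname u) S
        · exact hstop _ u G hG S hS hM hw
        · exact hsmall _ u G hG S hS hM
      | succ t iht =>
        intro u G hG ⟨S, hS⟩ hw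
        by_cases hM : Maj q F (kname u) S
        swap
        · exact hsmall _ u G hG S hS hM
        rcases hw with hw | ⟨p', hp', _, hw⟩
        · exact hstop _ u G hG S hS hM hw
        · have hg : Good q F (kname u) := ⟨S, hM⟩
          have hMS : M q F (kname u) = S := (M_spec hg).unique hq hM
          have h1 := (mem_kgri.1 hp').2
          rw [hMS] at h1
          rw [show t + 1 + len r * s = (t + len r * s) + 1 by ring]
          refine Or.inr ⟨kname (mv u p'), fun o ho => by rw [hS o ho]; exact h1, fun S' => ?_⟩
          exact iht (mv u p') _ ((fil_subset _ _).trans hG)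
            ⟨S', fun o ho => (mem_fil.1 ho).2⟩ hw
    refine (key (len r) v F (Finset.Subset.refl _) hV hnear').mono (le_of_eq ?_)
    ring

end LP

end Pool.Agent.Simplex.Tableau
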