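import Pool.Agent.Lib.MP_4d246d_lc.Grid.One

/-!
# One pivot rule that sees only names: quasi-polynomially many pivots on all linear programs, and
# polynomially many on all products of simplices

Let `m` and `n` be given. There is one deterministic pivot rule for all linear programs `max c x`,
`A x ≤ b` with `m` constraints, `n` variables and arbitrary real data, degenerate or not, bounded or
not. It does not see the data. All it sees are the names (sets of tight constraints) of the visited
vertices and of the other ends of their improving edges. From every vertex it reaches an optimal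
vertex or a vertex with an unbounded improving edge after at most
`176 m² n² s (2 ^ s C(n + s, s))²` pivots, where `s` is the number of binary digits of `m`.

If the feasible region is a product of `r` simplices (for example a combinatorial cube, or the
polytope of a Markov decision process), which the rule is not told, the same run takes at most
`88 r² m² n² s` pivots.
-/

namespace Pool.Agent.Results.MP_4d246d_lc.BlindRule

open Pool.Agent.Simplex.Tableau

theorem result (m n : ℕ) :
    ∃ ρ : BlindRule m, ∀ (P : LP m n) (x₀ : Fin n → ℝ), P.Vertex x₀ →
      ∃ (k : ℕ) (x : ℕ → Fin n → ℝ),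
        k ≤ 176 * m ^ 2 * n ^ 2 * Nat.size m * LP.pathBound m n ^ 2 ∧
        (∀ (r : ℕ) (g : Fin m → Fin r), P.IsProduct g →
          k ≤ 88 * r ^ 2 * m ^ 2 * n ^ 2 * Nat.size m) ∧
        x 0 = x₀ ∧ P.Run ρ x k ∧ P.Final (x k) ∧
        ∀ k' x', x' 0 = x₀ → P.Run ρ x' k' → k' ≤ k ∧ ∀ i ≤ k', x' i = x i :=
  LP.one_main m n

end Pool.Agent.Results.MP_4d246d_lc.BlindRule
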