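import Pool.Agent.Lib.MP_4d246d_lc.Blind.Defs

/-!
# Linear programs over products of simplices
-/

namespace Pool.Agent.Simplex.Tableau

namespace LP

variable {m n r : ℕ}

/-- The feasible region is a product of `r` simplices: `g` divides the constraints into `r`
(non-empty) groups, and for every choice `τ` of one constraint from each group there is a vertex at
which exactly the other constraints are tight. -/
def IsProduct (P : LP m n) (g : Fin m → Fin r) : Prop :=
  Function.Surjective g ∧ ∀ τ : Fin r → Fin m, (∀ i, g (τ i) = i) →
    ∃ x, P.Vertex x ∧ ∀ l, P.row l x = P.b l ↔ ∀ i, l ≠ τ i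

end LP

end Pool.Agent.Simplex.Tableau
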