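import Pool.Agent.Lib.MP_4d246d_lc.Grid.Geo
import Pool.Agent.Lib.MP_4d246d_lc.Blind.Final

/-!
# Polynomially many pivots on products of simplices
-/

namespace Pool.Agent.Simplex.Tableau

open Pool.Agent.MP4d246d.Blind Pool.Agent.MP4d246d.Grid

namespace LP

variable {m n r : ℕ} {g : Fin m → Fin r}

/-- the structures on names that come from products of simplices -/
noncomputable def prodFam (m n : ℕ) (g : Fin m → Fin r) : Finset (Name m → Finset (Name m)) :=
  fil (fam m n) fun o => ∃ P : LP m n, P.IsProduct g ∧ P.nview = o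

theorem exists_of_mem {F : Finset (Name m → Finset (Name m))} (hF : F ⊆ prodFam m n g)
    {o : Name m → Finset (Name m)} (ho : o ∈ F) : ∃ P : LP m n, P.IsProduct g ∧ P.nview = o :=
  (mem_fil.1 (hF ho)).2

/-- few vertices with a majority answer come from one linear program -/
theorem hc {q : ℕ} {F : Finset (Name m → Finset (Name m))} (hF : F ⊆ prodFam m n g)
    (hne : F.Nonempty) (T : Finset (Vtx (Val g))) (hT : T.card ≤ q)
    (hg : ∀ v ∈ T, Good q F (name v)) :
    ∃ o obj, Pool.Agent.MP4d246d.Grid.Valid (κ := Val g) o obj ∧ ∀ v ∈ T, o v = gri (M q F) v := by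
  classical
  obtain ⟨o, ho, hag⟩ := exists_agree hne (T.image name) (by
    intro w hw
    obtain ⟨v, hv, rfl⟩ := Finset.mem_image.1 hw
    exact hg v hv) (Finset.card_image_le.trans hT)
  obtain ⟨P, hP, rfl⟩ := exists_of_mem hF ho
  refine ⟨gri P.nview, _, hP.valid, fun v hv => ?_⟩
  ext p
  rw [mem_gri, mem_gri, hag (name v) (Finset.mem_image_of_mem _ hv)]

theorem len_mono : Monotone len := by
  refine monotone_nat_of_le_succ fun r => ?_
  show len r ≤ len (r + 1)
  rw [show len (r + 1) = (r + 1) + (len r + 1) from rfl]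
  omega

theorem small_step {q p : ℕ} (hq : 2 ≤ q) {F G : Finset (Name m → Finset (Name m))} (hG : G ⊆ F)
    {V : Name m} {S : Finset (Name m)} (hS : ∀ o ∈ G, o V = S) (hM : ¬ Maj q F V S)
    (hF : F.card * (q - 1) ^ (p + 1) < q ^ (p + 1)) : G.card * (q - 1) ^ p < q ^ p := by
  classical
  unfold Maj at hM
  push Not at hM
  have h1 : G.card + (F.filter fun o => o V ≠ S).card ≤ F.card := by
    rw [← Finset.card_union_of_disjoint]
    · exact Finset.card_le_card (Finset.union_subset hG (Finset.filter_subset _ _))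
    · rw [Finset.disjoint_left]
      intro o ho ho'
      exact (Finset.mem_filter.1 ho').2 (hS o ho)
  obtain ⟨s, rfl⟩ : ∃ s, q = s + 1 := ⟨q - 1, by omega⟩
  have h2 : (s + 1) * G.card ≤ s * F.card := by nlinarith
  have h3 : (s + 1) * (G.card * s ^ p) < (s + 1) * (s + 1) ^ p := by
    calc (s + 1) * (G.card * s ^ p) = ((s + 1) * G.card) * s ^ p := by ring
      _ ≤ (s * F.card) * s ^ p := Nat.mul_le_mul_right _ h2
      _ = F.card * s ^ (p + 1) := by ring
      _ < (s + 1) ^ (p + 1) := by simpa using hF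
      _ = (s + 1) * (s + 1) ^ p := by ring
  have := Nat.lt_of_mul_lt_mul_left h3
  simpa using this

/-- one phase after the other -/
theorem prod_phase {q : ℕ} (hq : 2 ≤ q) (hqm : m ≤ q) :
    ∀ (p : ℕ) (F : Finset (Name m → Finset (Name m))) (V : Name m),
      F ⊆ prodFam m n g → (∃ S, ∀ o ∈ F, o V = S) →
      F.card * (q - 1) ^ p < q ^ p → Win (len r * p) F V := by
  classical
  intro p
  induction p with
  | zero =>
    intro F v _ _ hF
    have : F = ∅ := by
      rw [← Finset.card_eq_zero]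
      simpa using hF
    subst this
    exact Win.of_base _ (by simp)
  | succ p ihp =>
    intro F V hsub hV hF
    rcases F.eq_empty_or_nonempty with rfl | hne
    · exact Win.of_base _ (by simp)
    by_cases hVn : ∃ v : Vtx (Val g), V = name v
    swap
    · push Not at hVn
      refine Win.of_base _ fun o ho => ?_
      obtain ⟨P, hP, rfl⟩ := exists_of_mem hsub ho
      exact hP.nview_empty hVn
    obtain ⟨v, rfl⟩ := hVn
    have hnear := near_card (κ := Val g) (Good := fun v => Good q F (name v))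
      (a := gri (M q F)) (K := q) hq (fun i => (Fintype.card_subtype_le _).trans (by simpa using hqm))
      (hc hsub hne) _ (fun _ => Finset.univ) rfl v (fun i => Finset.mem_univ _)
    have hnear' := hnear.mono (len_mono (by
      simpa using Finset.card_le_univ (free (κ := Val g) (fun _ => Finset.univ))))
    have key : ∀ (s : ℕ) (u : Vtx (Val g)) (G : Finset (Name m → Finset (Name m))), G ⊆ F →
        (∃ S, ∀ o ∈ G, o (name u) = S) →
        Near (fun v => Good q F (name v)) (gri (M q F)) (fun _ => Finset.univ) s u →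
        Win (s + len r * p) G (name u) := by
      intro s
      -- the parts that do not depend on `s`
      have hstop : ∀ (s : ℕ) (u : Vtx (Val g)) (G : Finset (Name m → Finset (Name m))), G ⊆ F →
          ∀ S, (∀ o ∈ G, o (name u) = S) → Maj q F (name u) S →
          (¬ Good q F (name u) ∨ Sink (gri (M q F)) (fun _ => Finset.univ) u) →
          Win s G (name u) := by
        intro s u G hG S hS hM h
        have hg : Good q F (name u) := ⟨S, hM⟩
        have hMS : M q F (name u) = S := (M_spec hg).unique hq hM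
        rcases h with h | h
        · exact absurd hg h
        · refine Win.of_base _ fun o ho => ?_
          obtain ⟨P, hP, rfl⟩ := exists_of_mem hsub (hG ho)
          rw [Finset.eq_empty_iff_forall_notMem]
          intro T hT
          obtain ⟨p, hp, hpT⟩ := hP.mem_nview hT
          have hp' := mem_gri.1 hp
          rw [hS _ ho, ← hMS] at hp'
          exact h p (mem_gri.2 hp') (Finset.mem_univ _)
      have hsmall : ∀ (s : ℕ) (u : Vtx (Val g)) (G : Finset (Name m → Finset (Name m))), G ⊆ F →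
          ∀ S, (∀ o ∈ G, o (name u) = S) → ¬ Maj q F (name u) S →
          Win (s + len r * p) G (name u) := by
        intro s u G hG S hS hM
        exact (ihp G (name u) (hG.trans hsub) ⟨S, hS⟩ (small_step hq hG hS hM hF)).mono (by omega)
      induction s with
      | zero =>
        intro u G hG ⟨S, hS⟩ hw
        by_cases hM : Maj q F (name u) S
        · exact hstop _ u G hG S hS hM hw
        · exact hsmall _ u G hG S hS hM
      | succ s ihs =>
        intro u G hG ⟨S, hS⟩ hw
        by_cases hM : Maj q F (name u) S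
        swap
        · exact hsmall _ u G hG S hS hM
        rcases hw with hw | ⟨p', hp', _, hw⟩
        · exact hstop _ u G hG S hS hM hw
        · have hg : Good q F (name u) := ⟨S, hM⟩
          have hMS : M q F (name u) = S := (M_spec hg).unique hq hM
          have h1 := (mem_gri.1 hp').2
          rw [hMS] at h1
          rw [show s + 1 + len r * p = (s + len r * p) + 1 by ring]
          refine Or.inr ⟨name (mv u p'), fun o ho => by rw [hS o ho]; exact h1, fun S' => ?_⟩
          exact ihs (mv u p') _ ((fil_subset _ _).trans hG)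
            ⟨S', fun o ho => (mem_fil.1 ho).2⟩ hw
    refine (key (len r) v F (Finset.Subset.refl _) hV hnear').mono (le_of_eq ?_)
    ring

/-- enough phases -/
theorem prod_win {q L : ℕ} (hq : 2 ≤ q) (hqm : m ≤ q) (hF : (fam m n).card < 2 ^ L) (V : Name m)
    (S : Finset (Name m)) : Win (len r * ((q - 1) * L)) (cand (prodFam m n g) [(V, S)]) V := by
  classical
  have hsub : cand (prodFam m n g) [(V, S)] ⊆ prodFam m n g := fil_subset _ _
  refine prod_phase hq hqm _ _ V hsub ⟨S, fun o ho => ?_⟩ ?_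
  · have := (mem_fil.1 ho).2 (V, S) (by simp)
    exact this
  · obtain ⟨s, rfl⟩ : ∃ s, q = s + 1 := ⟨q - 1, by omega⟩
    have hs : 1 ≤ s := by omega
    rw [Nat.add_sub_cancel]
    have h1 := (Finset.card_le_card (hsub.trans (fil_subset _ _))).trans_lt hF
    have h2 : 0 < s ^ (s * L) := by positivity
    calc (cand (prodFam m n g) [(V, S)]).card * s ^ (s * L) < 2 ^ L * s ^ (s * L) :=
          Nat.mul_lt_mul_of_pos_right h1 h2
      _ = (2 * s ^ s) ^ L := by rw [mul_pow, ← pow_mul]
      _ ≤ ((s + 1) ^ s) ^ L := Nat.pow_le_pow_left (two_mul_pow_le hs) L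
      _ = (s + 1) ^ (s * L) := by rw [← pow_mul]

theorem prod_bound (hn : 0 < n) (hnm : n ≤ m) :
    len r * ((m + 1) * ((m * n + (m + n)) * (Nat.size m * (n + 3) + 3) + 1)) ≤
      88 * r ^ 2 * m ^ 2 * n ^ 2 * Nat.size m := by
  have hm : 0 < m := by omega
  set j := Nat.size m with hj
  have hj1 : 1 ≤ j := Nat.size_pos.2 hm
  have h5 : m * n + (m + n) ≤ 3 * (m * n) := by nlinarith
  have h6 : j * (n + 3) + 3 ≤ 7 * (j * n) := by nlinarith
  have h7 : (m * n + (m + n)) * (j * (n + 3) + 3) + 1 ≤ 22 * (m * n * (j * n)) := by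
    have h8 := Nat.mul_le_mul h5 h6
    have h9 : 1 ≤ m * n * (j * n) := Nat.mul_pos (Nat.mul_pos hm hn) (Nat.mul_pos hj1 hn)
    nlinarith
  calc len r * ((m + 1) * ((m * n + (m + n)) * (j * (n + 3) + 3) + 1))
      ≤ (2 * r ^ 2) * ((2 * m) * (22 * (m * n * (j * n)))) :=
        Nat.mul_le_mul (len_le r) (Nat.mul_le_mul (by omega) h7)
    _ = 88 * r ^ 2 * m ^ 2 * n ^ 2 * j := by ring

/-- **Main theorem.** -/
theorem prod_main (m n r : ℕ) (g : Fin m → Fin r) :
    ∃ ρ : BlindRule m, ∀ P : LP m n, P.IsProduct g → ∀ x₀ : Fin n → ℝ, P.Vertex x₀ →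
    ∃ (k : ℕ) (x : ℕ → Fin n → ℝ),
      k ≤ 88 * r ^ 2 * m ^ 2 * n ^ 2 * Nat.size m ∧
      x 0 = x₀ ∧ P.Run ρ x k ∧ P.Final (x k) ∧
      ∀ k' x', x' 0 = x₀ → P.Run ρ x' k' → k' ≤ k ∧ ∀ i ≤ k', x' i = x i := by
  classical
  by_cases hnm : 0 < n ∧ n ≤ m
  swap
  · refine ⟨⟨pickOf ∅ 0 ∅, pickOf_mem ∅ 0 ∅⟩, fun P _ x₀ hx₀ => ?_⟩
    have h1 : n ≤ m := le_of_vertex hx₀
    have hn : n = 0 := by omega
    subst hn
    have hf : P.Final x₀ := ⟨hx₀, Or.inl ⟨hx₀.1, fun y _ => by simp [obj]⟩⟩
    have hrun : P.Run (⟨pickOf ∅ 0 ∅, pickOf_mem ∅ 0 ∅⟩ : BlindRule m) (fun _ => x₀) 0 :=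
      ⟨fun t ht => absurd ht (Nat.not_lt_zero t), fun t ht => absurd ht (Nat.not_lt_zero t),
        fun t ht => absurd ht (Nat.not_lt_zero t)⟩
    exact ⟨0, fun _ => x₀, Nat.zero_le _, rfl, hrun, hf, fun k' x' h0 h' =>
      Run.unique h0.symm hrun hf h'⟩
  obtain ⟨hn, hnm⟩ := hnm
  have hm : 0 < m := by omega
  set L := (m * n + (m + n)) * (Nat.size m * (n + 3) + 3) + 1 with hL
  set N := len r * ((m + 2 - 1) * L) with hN
  have hwin : ∀ v S, Win N (cand (prodFam m n g) [(v, S)]) v := fun v S =>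
    prod_win (q := m + 2) (by omega) (by omega) (card_fam_lt hnm) v S
  refine ⟨⟨pickOf ∅ N (prodFam m n g), pickOf_mem ∅ N (prodFam m n g)⟩, fun P hP x₀ hx₀ => ?_⟩
  set ρ : BlindRule m := ⟨pickOf ∅ N (prodFam m n g), pickOf_mem ∅ N (prodFam m n g)⟩ with hρ
  obtain ⟨k, x, hkN, hx0, hxk, hrun, hcase⟩ := run_of_nrun (ρ := ρ) hx₀ N
  have hf : P.Final (x k) := by
    rcases hcase with ⟨hf, _⟩ | ⟨rfl, hf, hseen⟩
    · exact hf
    · exfalso
      obtain ⟨v, l, h1, h2⟩ := pickOf_spec ∅ N (prodFam m n g) hwin P.nview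
        (mem_fil.2 ⟨Finset.mem_filter.2 ⟨Finset.mem_univ _, P, rfl⟩, P, hP, rfl⟩) (P.tight x₀)
      obtain ⟨l', h3⟩ := P.seen_head x N
      have h4 : (v, P.nview v) :: l = (P.tight (x N), P.view (x N)) :: l' := by
        rw [← h3, ← hseen]
        exact h1.symm
      have h5 : P.view (x N) = ∅ := by
        have h6 := (List.cons.inj h4).1
        have h7 := (Prod.ext_iff.1 h6).2
        simp only at h7
        rw [← h7]
        exact h2
      have h8 := view_nonempty hxk hf
      rw [h5] at h8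
      exact Finset.not_nonempty_empty h8
  refine ⟨k, x, hkN.trans ?_, hx0, hrun, hf, fun k' x' h0 h' =>
    Run.unique (hx0.trans h0.symm) hrun hf h'⟩
  rw [hN, show m + 2 - 1 = m + 1 by omega]
  exact prod_bound hn hnm

end LP

end Pool.Agent.Simplex.Tableau
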