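import Mathlib

set_option autoImplicit false

/-!
# Short paths in incomplete orientations of grids (products of simplices)
-/

namespace Pool.Agent.MP4d246d.Grid

variable {n : ℕ} {κ : Fin n → Type} [∀ i, Fintype (κ i)] [∀ i, DecidableEq (κ i)]

/-- the vertices of the grid: one value for every coordinate -/
abbrev Vtx (κ : Fin n → Type) : Type := (i : Fin n) → κ i

/-- the moves: a coordinate and its new value -/
abbrev Mv (κ : Fin n → Type) : Type := Σ i, κ i

/-- the vertex after a move -/
def mv (v : Vtx κ) (p : Mv κ) : Vtx κ := Function.update v p.1 p.2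

/-- an orientation: the improving moves at every vertex -/
abbrev Ori (κ : Fin n → Type) : Type := Vtx κ → Finset (Mv κ)

/-- the properties of the improving moves of a linear program that are used -/
structure Valid (o : Ori κ) (obj : Vtx κ → ℝ) : Prop where
  ne : ∀ {v p}, p ∈ o v → p.2 ≠ v p.1
  up : ∀ {v p}, p ∈ o v → obj v < obj (mv v p)
  top : ∀ {v w}, (∀ i, w i ≠ v i → (⟨i, w i⟩ : Mv κ) ∉ o v) → obj w ≤ obj v

/-- `v` lies in the subgrid `S` -/
def InS (S : ∀ i, Finset (κ i)) (v : Vtx κ) : Prop := ∀ i, v i ∈ S i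

/-- `v` has no improving move in the subgrid `S` -/
def Sink (a : Ori κ) (S : ∀ i, Finset (κ i)) (v : Vtx κ) : Prop := ∀ p ∈ a v, p.2 ∉ S p.1

/-- From `v` a directed path of at most `r` edges in the subgrid `S` leads to a vertex that is
not good or is a sink of the subgrid. -/
def Near (Good : Vtx κ → Prop) (a : Ori κ) (S : ∀ i, Finset (κ i)) : ℕ → Vtx κ → Prop
  | 0, v => ¬ Good v ∨ Sink a S v
  | r + 1, v => (¬ Good v ∨ Sink a S v) ∨ ∃ p ∈ a v, p.2 ∈ S p.1 ∧ Near Good a S r (mv v p)

theorem Near.of_base {Good : Vtx κ → Prop} {a : Ori κ} {S : ∀ i, Finset (κ i)} (r : ℕ) {v : Vtx κ}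
    (h : ¬ Good v ∨ Sink a S v) : Near Good a S r v := by
  cases r with
  | zero => exact h
  | succ r => exact Or.inl h

theorem Near.mono {Good : Vtx κ → Prop} {a : Ori κ} {S : ∀ i, Finset (κ i)} :
    ∀ {r s : ℕ} {v : Vtx κ}, r ≤ s → Near Good a S r v → Near Good a S s v := by
  intro r
  induction r with
  | zero => intro s v _ h; exact Near.of_base s h
  | succ r ih =>
    intro s v hs h
    obtain ⟨s', rfl⟩ : ∃ s', s = s' + 1 := ⟨s - 1, by omega⟩
    rcases h with h | ⟨p, hp, hpS, h⟩
    · exact Or.inl h
    · exact Or.inr ⟨p, hp, hpS, ih (by omega) h⟩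

theorem InS.mv {S : ∀ i, Finset (κ i)} {v : Vtx κ} (h : InS S v) {p : Mv κ} (hp : p.2 ∈ S p.1) :
    InS S (mv v p) := by
  intro i
  by_cases hi : i = p.1
  · subst hi
    simpa [Grid.mv] using hp
  · simpa [Grid.mv, Function.update_of_ne hi] using h i

/-- a path in a subgrid without good sink is a path in the grid -/
theorem Near.lift {Good : Vtx κ → Prop} {a : Ori κ} {S R : ∀ i, Finset (κ i)}
    (hRS : ∀ i, R i ⊆ S i) (hno : ∀ w, InS R w → Good w → ¬ Sink a R w) :
    ∀ {r : ℕ} {v : Vtx κ}, InS R v → Near Good a R r v → Near Good a S r v := by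
  intro r
  induction r with
  | zero =>
    intro v hv h
    rcases h with h | h
    · exact Or.inl h
    · by_cases hg : Good v
      · exact absurd h (hno v hv hg)
      · exact Or.inl hg
  | succ r ih =>
    intro v hv h
    rcases h with (h | h) | ⟨p, hp, hpR, h⟩
    · exact Or.inl (Or.inl h)
    · by_cases hg : Good v
      · exact absurd h (hno v hv hg)
      · exact Or.inl (Or.inl hg)
    · exact Or.inr ⟨p, hp, hRS _ hpR, ih (hv.mv hpR) h⟩

/-- the coordinates of the subgrid `S` that are not fixed -/
def free (S : ∀ i, Finset (κ i)) : Finset (Fin n) := Finset.univ.filter fun i => 2 ≤ (S i).card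

theorem diff_subset_free {S : ∀ i, Finset (κ i)} {u t : Vtx κ} (hu : InS S u) (ht : InS S t) :
    (Finset.univ.filter fun i => u i ≠ t i) ⊆ free S := by
  intro i hi
  have hne := (Finset.mem_filter.1 hi).2
  refine Finset.mem_filter.2 ⟨Finset.mem_univ _, ?_⟩
  exact Finset.one_lt_card.2 ⟨u i, hu i, t i, ht i, hne⟩

/-- towards the good sinks of a subgrid `R`, and on from there -/
theorem near_to {Good : Vtx κ → Prop} {a : Ori κ} {K : ℕ} (hK : 2 ≤ K)
    (hc : ∀ T : Finset (Vtx κ), T.card ≤ K → (∀ v ∈ T, Good v) →
      ∃ o obj, Valid o obj ∧ ∀ v ∈ T, o v = a v)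
    {S R : ∀ i, Finset (κ i)} (hRS : ∀ i, R i ⊆ S i) {t : Vtx κ} (ht : InS R t) (hgt : Good t)
    (hat : Sink a R t) {q : ℕ} (hq : ∀ t', InS R t' → Good t' → Sink a R t' → Near Good a S q t') :
    ∀ (r : ℕ) (u : Vtx κ), InS R u →
    (Finset.univ.filter fun i => u i ≠ t i).card ≤ r → Near Good a S (r + q) u := by
  classical
  intro r
  induction r with
  | zero =>
    intro u hu hr
    have h0 := Finset.card_eq_zero.1 (Nat.le_zero.1 hr)
    have : u = t := by
      funext i
      by_contra hne
      have : i ∈ (Finset.univ.filter fun i => u i ≠ t i) :=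
        Finset.mem_filter.2 ⟨Finset.mem_univ _, hne⟩
      rw [h0] at this
      simp at this
    subst this
    exact (hq u ht hgt hat).mono (by omega)
  | succ r ih =>
    intro u hu hr
    by_cases hg : Good u
    swap
    · exact Near.of_base _ (Or.inl hg)
    by_cases hsu : Sink a R u
    · exact (hq u hu hg hsu).mono (by omega)
    obtain ⟨o, obj, ho, hoa⟩ := hc {u, t} ((Finset.card_le_two).trans hK) (by
      intro v hv
      rcases Finset.mem_insert.1 hv with rfl | hv
      · exact hg
      · rw [Finset.mem_singleton.1 hv]; exact hgt)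
    have hou : o u = a u := hoa u (by simp)
    have hot : o t = a t := hoa t (by simp)
    obtain ⟨i, hi, hx⟩ : ∃ i, t i ≠ u i ∧ (⟨i, t i⟩ : Mv κ) ∈ a u := by
      by_contra hcon
      push Not at hcon
      have h1 := ho.top (v := u) (w := t) (fun i hi => by
        rw [hou]; exact hcon i hi)
      obtain ⟨p, hp, hpR⟩ : ∃ p ∈ a u, p.2 ∈ R p.1 := by
        by_contra hcon
        push Not at hcon
        exact hsu hcon
      have h2 := ho.up (v := u) (p := p) (by rw [hou]; exact hp)
      have h3 := ho.top (v := t) (w := Grid.mv u p) (fun i _ h => by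
        rw [hot] at h
        exact hat _ h ((hu.mv hpR) i))
      linarith
    have hr1 : r + 1 + q = (r + q) + 1 := by ring
    rw [hr1]
    refine Or.inr ⟨⟨i, t i⟩, hx, hRS i (ht i), ih _ (hu.mv (p := ⟨i, t i⟩) (ht i)) ?_⟩
    have hsub : (Finset.univ.filter fun j => Grid.mv u ⟨i, t i⟩ j ≠ t j) ⊆
        (Finset.univ.filter fun j => u j ≠ t j).erase i := by
      intro j hj
      have hj := (Finset.mem_filter.1 hj).2
      have hji : j ≠ i := by
        rintro rfl
        apply hj
        simp [Grid.mv]
      refine Finset.mem_erase.2 ⟨hji, Finset.mem_filter.2 ⟨Finset.mem_univ _, ?_⟩⟩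
      simpa [Grid.mv, Function.update_of_ne hji] using hj
    have hmem : i ∈ (Finset.univ.filter fun j => u j ≠ t j) :=
      Finset.mem_filter.2 ⟨Finset.mem_univ _, Ne.symm hi⟩
    have := Finset.card_le_card hsub
    rw [Finset.card_erase_of_mem hmem] at this
    omega

/-- the length of the paths -/
def len : ℕ → ℕ
  | 0 => 0
  | r + 1 => (r + 1) + (len r + 1)

theorem le_len (r : ℕ) : r ≤ len r := by
  cases r with
  | zero => exact le_rfl
  | succ r => rw [len]; omega

theorem len_le (r : ℕ) : len r ≤ 2 * r ^ 2 := by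
  induction r with
  | zero => simp [len]
  | succ r ih => rw [len]; nlinarith

/-- **Path lemma for grids.** -/
theorem near_card {Good : Vtx κ → Prop} {a : Ori κ} {K : ℕ} (hK : 2 ≤ K)
    (hκ : ∀ i, Fintype.card (κ i) ≤ K)
    (hc : ∀ T : Finset (Vtx κ), T.card ≤ K → (∀ v ∈ T, Good v) →
      ∃ o obj, Valid o obj ∧ ∀ v ∈ T, o v = a v) :
    ∀ (r : ℕ) (S : ∀ i, Finset (κ i)), (free S).card = r → ∀ u : Vtx κ, InS S u →
      Near Good a S (len r) u := by
  classical
  intro r
  induction r with
  | zero =>
    intro S hS u hu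
    by_cases hg : Good u
    swap
    · exact Near.of_base _ (Or.inl hg)
    refine Near.of_base _ (Or.inr ?_)
    intro p hp hpS
    obtain ⟨o, obj, ho, hoa⟩ := hc {u} (by simp; omega) (by simpa using hg)
    have hne := ho.ne (v := u) (p := p) (by rw [hoa u (by simp)]; exact hp)
    have : p.1 ∈ free S := Finset.mem_filter.2 ⟨Finset.mem_univ _,
      Finset.one_lt_card.2 ⟨p.2, hpS, u p.1, hu p.1, hne⟩⟩
    rw [Finset.card_eq_zero.1 hS] at this
    simp at this
  | succ r ih =>
    intro S hS u hu
    by_cases hg : Good u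
    swap
    · exact Near.of_base _ (Or.inl hg)
    by_cases hau : Sink a S u
    · exact Near.of_base _ (Or.inr hau)
    by_cases hs : ∃ t, InS S t ∧ Good t ∧ Sink a S t
    · obtain ⟨t, ht, hgt, hat⟩ := hs
      have h1 := near_to hK hc (fun i => Finset.Subset.refl (S i)) ht hgt hat
        (q := 0) (fun t' _ _ h => Or.inr h) (len (r + 1)) u hu
        ((Finset.card_le_card (diff_subset_free hu ht)).trans (by rw [hS]; exact le_len _))
      exact h1
    push Not at hs
    -- a free coordinate
    obtain ⟨p, hp, hpS⟩ : ∃ p ∈ a u, p.2 ∈ S p.1 := by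
      by_contra hcon
      push Not at hcon
      exact hau hcon
    obtain ⟨o, obj, ho, hoa⟩ := hc {u} (by simp; omega) (by simpa using hg)
    have hne := ho.ne (v := u) (p := p) (by rw [hoa u (by simp)]; exact hp)
    clear ho hoa o obj
    obtain ⟨j, hj⟩ : ∃ j, j = p.1 := ⟨_, rfl⟩
    have hjf : j ∈ free S := by
      rw [hj]
      exact Finset.mem_filter.2 ⟨Finset.mem_univ _,
        Finset.one_lt_card.2 ⟨p.2, hpS, u p.1, hu p.1, hne⟩⟩
    clear hne hpS hp hj p
    -- the layers
    set layer : κ j → ∀ i, Finset (κ i) := fun b => Function.update S j {b} with hlayer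
    have hlj : ∀ b, layer b j = {b} := fun b => by simp [hlayer]
    have hli : ∀ b i, i ≠ j → layer b i = S i := fun b i hi => by
      simp [hlayer, Function.update_of_ne hi]
    have hlfree : ∀ b, (free (layer b)).card = r := by
      intro b
      have : free (layer b) = (free S).erase j := by
        ext i
        simp only [free, Finset.mem_filter, Finset.mem_univ, true_and, Finset.mem_erase]
        by_cases hi : i = j
        · subst hi
          rw [hlj]
          simp
        · rw [hli b i hi]
          simp [hi]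
      rw [this, Finset.card_erase_of_mem hjf, hS]
      omega
    have hlS : ∀ b ∈ S j, ∀ i, layer b i ⊆ S i := by
      intro b hb i
      by_cases hi : i = j
      · subst hi
        rw [hlj]
        simpa using hb
      · rw [hli b i hi]
    have hmem : ∀ v : Vtx κ, InS S v → InS (layer (v j)) v := by
      intro v hv i
      by_cases hi : i = j
      · subst hi
        rw [hlj]
        simp
      · rw [hli _ i hi]
        exact hv i
    -- no good sink in the layer: induction in the layer
    have hlow : ∀ v : Vtx κ, InS S v → (∀ w, InS (layer (v j)) w → Good w →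
        ¬ Sink a (layer (v j)) w) → Near Good a S (len r) v := by
      intro v hv hno
      exact Near.lift (hlS _ (hv j)) hno (hmem v hv) (ih _ (hlfree _) v (hmem v hv))
    set T : Finset (κ j) := (S j).filter fun b =>
      ∃ t, InS (layer b) t ∧ Good t ∧ Sink a (layer b) t with hT
    by_cases huT : u j ∈ T
    swap
    · refine (hlow u hu fun w hw hgw hsw => huT ?_).mono (by rw [len]; omega)
      exact Finset.mem_filter.2 ⟨hu j, w, hw, hgw, hsw⟩
    -- the sinks of the layers
    have hex : ∀ b : κ j, ∃ t : Vtx κ, b ∈ T → InS (layer b) t ∧ Good t ∧ Sink a (layer b) t := by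
      intro b
      by_cases hb : b ∈ T
      · obtain ⟨t, ht⟩ := (Finset.mem_filter.1 hb).2
        exact ⟨t, fun _ => ht⟩
      · exact ⟨u, fun h => absurd h hb⟩
    choose t ht using hex
    have htj : ∀ b ∈ T, t b j = b := by
      intro b hb
      have := (ht b hb).1 j
      rw [hlj] at this
      exact Finset.mem_singleton.1 this
    have htS : ∀ b ∈ T, InS S (t b) := fun b hb i =>
      hlS b (Finset.mem_filter.1 hb).1 i ((ht b hb).1 i)
    obtain ⟨b, hb, hbT⟩ : ∃ b ∈ T, ∀ b' ∈ T, (⟨j, b'⟩ : Mv κ) ∉ a (t b) := by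
      by_contra hcon
      push Not at hcon
      obtain ⟨o, obj, ho, hoa⟩ := hc (T.image t)
        (Finset.card_image_le.trans ((Finset.card_le_univ T).trans (hκ j))) (by
          intro v hv
          obtain ⟨b, hb, rfl⟩ := Finset.mem_image.1 hv
          exact (ht b hb).2.1)
      obtain ⟨b, hb, hmax⟩ := Finset.exists_max_image T (fun b => obj (t b)) ⟨u j, huT⟩
      obtain ⟨b', hb', hx⟩ := hcon b hb
      have h1 : obj (t b) < obj (Grid.mv (t b) ⟨j, b'⟩) :=
        ho.up (by rw [hoa _ (Finset.mem_image_of_mem t hb)]; exact hx)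
      have h2 : obj (Grid.mv (t b) ⟨j, b'⟩) ≤ obj (t b') := by
        by_cases heq : Grid.mv (t b) ⟨j, b'⟩ = t b'
        · rw [heq]
        · refine ho.top fun i hi h => ?_
          rw [hoa _ (Finset.mem_image_of_mem t hb')] at h
          refine (ht b' hb').2.2 _ h ?_
          have hij : i ≠ j := by
            rintro rfl
            apply hi
            rw [htj b' hb']
            simp [Grid.mv]
          show Grid.mv (t b) ⟨j, b'⟩ i ∈ layer b' i
          rw [hli _ i hij]
          simpa [Grid.mv, Function.update_of_ne hij] using htS b hb i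
      have h3 := hmax b' hb'
      linarith
    -- the union of the layers with a good sink
    set R : ∀ i, Finset (κ i) := Function.update S j T with hR
    have hRj : R j = T := by simp [hR]
    have hRi : ∀ i, i ≠ j → R i = S i := fun i hi => by simp [hR, Function.update_of_ne hi]
    have hRS : ∀ i, R i ⊆ S i := by
      intro i
      by_cases hi : i = j
      · subst hi
        rw [hRj]
        exact Finset.filter_subset _ _
      · rw [hRi i hi]
    have hRu : InS R u := by
      intro i
      by_cases hi : i = j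
      · subst hi
        rw [hRj]
        exact huT
      · rw [hRi i hi]
        exact hu i
    have hRt : InS R (t b) := by
      intro i
      by_cases hi : i = j
      · subst hi
        rw [hRj, htj b hb]
        exact hb
      · rw [hRi i hi]
        exact htS b hb i
    have hsink : ∀ p ∈ a (t b), p.2 ∈ S p.1 → p.1 = j := by
      intro p hp hpS
      by_contra hpj
      exact (ht b hb).2.2 p hp (by rw [hli _ _ hpj]; exact hpS)
    have hRsink : Sink a R (t b) := by
      rintro ⟨i, c⟩ hp hpR
      have hij : i = j := hsink ⟨i, c⟩ hp (hRS i hpR)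
      subst hij
      rw [hRj] at hpR
      exact hbT c hpR hp
    -- from the sinks of `R` on
    have htb : ∀ t', InS R t' → Good t' → Sink a R t' → Near Good a S (len r + 1) t' := by
      intro t' ht' hgt' hst'
      have htS' : InS S t' := fun i => hRS i (ht' i)
      obtain ⟨⟨i, c⟩, hp, hpS⟩ : ∃ p ∈ a t', p.2 ∈ S p.1 := by
        by_contra hcon
        push Not at hcon
        exact hs t' htS' hgt' hcon
      have hij : i = j := by
        by_contra hij
        exact hst' ⟨i, c⟩ hp (by rw [hRi i hij]; exact hpS)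
      subst hij
      refine Or.inr ⟨⟨i, c⟩, hp, hpS, ?_⟩
      have hmv : Grid.mv t' ⟨i, c⟩ i = c := by simp [Grid.mv]
      refine hlow _ (htS'.mv (p := ⟨i, c⟩) hpS) ?_
      rw [hmv]
      intro w hw hgw hsw
      refine hst' ⟨i, c⟩ hp ?_
      rw [hRj]
      exact Finset.mem_filter.2 ⟨hpS, w, hw, hgw, hsw⟩
    have h1 := near_to hK hc hRS hRt (ht b hb).2.1 hRsink htb (r + 1) u hRu
      ((Finset.card_le_card (diff_subset_free hu (htS b hb))).trans hS.le)
    exact h1

end Pool.Agent.MP4d246d.Grid
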