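import Pool.Agent.Lib.MP_4d246d_lc.Grid.Defs
import Pool.Agent.Lib.MP_4d246d_lc.Grid.Path
import Pool.Agent.Lib.MP_4d246d_lc.Blind.Geo

/-!
# Geometry of linear programs over products of simplices
-/

namespace Pool.Agent.Simplex.Tableau

open Matrix Pool.Agent.Simplex.CI Pool.Agent.MP4d246d.Blind Pool.Agent.MP4d246d.Grid

namespace LP

variable {m n r : ℕ} {g : Fin m → Fin r}

/-- the values of coordinate `i`: the constraints of group `i` -/
abbrev Val (g : Fin m → Fin r) (i : Fin r) : Type := {l : Fin m // g l = i}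

/-- the name of a vertex of the grid -/
def name (v : Vtx (Val g)) : Name m := Finset.univ.filter fun l => ∀ i, l ≠ (v i).1

theorem mem_name {v : Vtx (Val g)} {l : Fin m} : l ∈ name v ↔ ∀ i, l ≠ (v i).1 := by
  simp [name]

theorem not_mem_name {v : Vtx (Val g)} {l : Fin m} : l ∉ name v ↔ (v (g l)).1 = l := by
  rw [mem_name]
  push Not
  constructor
  · rintro ⟨i, hi⟩
    have h1 : g l = i := by rw [hi]; exact (v i).2
    subst h1
    exact hi.symm
  · intro h
    exact ⟨g l, h.symm⟩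

theorem name_injective : Function.Injective (name (g := g)) := by
  intro v w h
  funext i
  have h1 : (v i).1 ∉ name w := by
    rw [← h, mem_name]
    push Not
    exact ⟨i, rfl⟩
  rw [not_mem_name] at h1
  apply Subtype.ext
  rw [← h1]
  have h2 : g (v i).1 = i := (v i).2
  rw [h2]

theorem mv_self {v : Vtx (Val g)} {p : Mv (Val g)} : mv v p p.1 = p.2 := by
  simp [mv]

theorem mv_ne {v : Vtx (Val g)} {p : Mv (Val g)} {i : Fin r} (h : i ≠ p.1) : mv v p i = v i := by
  simp [mv, Function.update_of_ne h]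

/-- the new value of a move is tight before the move -/
theorem val_mem_name {v : Vtx (Val g)} {p : Mv (Val g)} (hp : p.2 ≠ v p.1) :
    p.2.1 ∈ name v := by
  by_contra h
  rw [not_mem_name] at h
  apply hp
  apply Subtype.ext
  rw [← h]
  have h2 : g p.2.1 = p.1 := p.2.2
  rw [h2]

theorem val_not_mem_name_mv {v : Vtx (Val g)} {p : Mv (Val g)} : p.2.1 ∉ name (mv v p) := by
  rw [mem_name]
  push Not
  exact ⟨p.1, by rw [mv_self]⟩

theorem mem_name_mv {v : Vtx (Val g)} {p : Mv (Val g)} {l : Fin m} (hl : l ∈ name v)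
    (hne : l ≠ p.2.1) : l ∈ name (mv v p) := by
  rw [mem_name] at hl ⊢
  intro i
  by_cases hi : i = p.1
  · subst hi
    rw [mv_self]
    exact hne
  · rw [mv_ne hi]
    exact hl i

variable {P : LP m n}

theorem IsProduct.exists_vertex (hP : P.IsProduct g) (v : Vtx (Val g)) :
    ∃ x, P.Vertex x ∧ P.tight x = name v := by
  obtain ⟨x, hx, hl⟩ := hP.2 (fun i => (v i).1) (fun i => (v i).2)
  refine ⟨x, hx, ?_⟩
  ext l
  rw [mem_tight, mem_name]
  exact hl l

theorem vertex_feasible {x : Fin n → ℝ} (hx : P.Vertex x) (l : Fin m) : P.A l ⬝ᵥ x ≤ P.b l :=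
  (P.vertex_vtx.1 hx).1 l

/-- the direction to a neighbour in the grid -/
theorem dir_spec {v : Vtx (Val g)} {p : Mv (Val g)} (hp : p.2 ≠ v p.1) {x y : Fin n → ℝ}
    (hxv : P.tight x = name v) (hy : P.Vertex y) (hyv : P.tight y = name (mv v p)) :
    P.A p.2.1 ⬝ᵥ (y - x) < 0 ∧ ∀ l ∈ name v, l ≠ p.2.1 → P.A l ⬝ᵥ (y - x) = 0 := by
  constructor
  · have h1 : P.A p.2.1 ⬝ᵥ x = P.b p.2.1 := mem_tight.1 (by rw [hxv]; exact val_mem_name hp)
    have h2 : P.A p.2.1 ⬝ᵥ y ≠ P.b p.2.1 := fun h =>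
      val_not_mem_name_mv (v := v) (p := p) (by rw [← hyv]; exact mem_tight.2 h)
    have h3 := vertex_feasible hy p.2.1
    rw [dotProduct_sub, h1]
    have := lt_of_le_of_ne h3 h2
    linarith
  · intro l hl hne
    have h1 : P.A l ⬝ᵥ x = P.b l := mem_tight.1 (by rw [hxv]; exact hl)
    have h2 : P.A l ⬝ᵥ y = P.b l := mem_tight.1 (by rw [hyv]; exact mem_name_mv hl hne)
    rw [dotProduct_sub, h1, h2, sub_self]

/-- a direction that is alone with its zeros is a direction to a neighbour in the grid -/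
theorem IsProduct.exists_dir (hP : P.IsProduct g) {x z : Fin n → ℝ} (hx : P.Vertex x)
    {v : Vtx (Val g)} (hxv : P.tight x = name v) (hz0 : z ≠ 0)
    (hz : ∀ l ∈ P.tight x, P.A l ⬝ᵥ z ≤ 0)
    (hz1 : ∀ q : Fin n → ℝ, (∀ l, P.A l ⬝ᵥ x = P.b l → P.A l ⬝ᵥ z = 0 → P.A l ⬝ᵥ q = 0) →
      ∃ t : ℝ, q = t • z) :
    ∃ (p : Mv (Val g)) (y : Fin n → ℝ) (t : ℝ), p.2 ≠ v p.1 ∧ P.Vertex y ∧
      P.tight y = name (mv v p) ∧ 0 < t ∧ y = x + t • z := by
  obtain ⟨a, ha, haz⟩ : ∃ a, P.A a ⬝ᵥ x = P.b a ∧ P.A a ⬝ᵥ z ≠ 0 := by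
    by_contra hcon
    push Not at hcon
    exact hz0 ((P.vertex_vtx.1 hx).2 z hcon)
  have hat : a ∈ P.tight x := mem_tight.2 ha
  have haz' : P.A a ⬝ᵥ z < 0 := lt_of_le_of_ne (hz a hat) haz
  let p : Mv (Val g) := ⟨g a, ⟨a, rfl⟩⟩
  have hp : p.2 ≠ v p.1 := by
    intro h
    have h1 : a ∉ name v := by
      rw [not_mem_name]
      exact (congrArg Subtype.val h).symm
    exact h1 (by rw [← hxv]; exact hat)
  obtain ⟨y, hy, hyv⟩ := hP.exists_vertex (mv v p)
  obtain ⟨h1, h2⟩ := dir_spec hp hxv hy hyv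
  obtain ⟨t, ht⟩ := hz1 (y - x) fun l hl hlz => by
    apply h2 l (by rw [← hxv]; exact mem_tight.2 hl)
    rintro rfl
    exact haz hlz
  have h3 : P.A a ⬝ᵥ (y - x) = t * (P.A a ⬝ᵥ z) := by
    rw [ht, dotProduct_smul, smul_eq_mul]
  have h4 : P.A a ⬝ᵥ (y - x) < 0 := h1
  have ht0 : 0 < t := by
    rw [h3] at h4
    nlinarith
  exact ⟨p, y, t, hp, hy, hyv, ht0, by rw [← ht]; abel⟩

/-- a vertex is not between two feasible points -/
theorem vertex_not_between {y u w : Fin n → ℝ} (hy : P.Vertex y) (hu : u ∈ P.feasible)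
    (hw : w ∈ P.feasible) {s : ℝ} (hs : 0 < s) (hs1 : s < 1)
    (h : y = u + s • (w - u)) : u = w := by
  have h1 : y ∈ openSegment ℝ u w := by
    refine ⟨1 - s, s, by linarith, hs, by ring, ?_⟩
    rw [h]
    ext j
    simp only [Pi.add_apply, Pi.smul_apply, smul_eq_mul, Pi.sub_apply]
    ring
  have h2 := hy.2 hu hw h1
  have h3 : s • (w - u) = 0 := by
    have h4 : u + s • (w - u) = u + 0 := by rw [add_zero, ← h, h2]
    exact add_left_cancel h4
  have h4 := (smul_eq_zero.1 h3).resolve_left hs.ne'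
  exact (sub_eq_zero.1 h4).symm

/-- the edges lead to the neighbours in the grid -/
theorem IsProduct.edge (hP : P.IsProduct g) {x y : Fin n → ℝ} {v : Vtx (Val g)}
    (hxv : P.tight x = name v) (hE : P.Edge x y) :
    ∃ p : Mv (Val g), p.2 ≠ v p.1 ∧ P.tight y = name (mv v p) := by
  have hx := hE.1
  have hy := hE.2.1
  have hne := hE.2.2.1
  have hedg := hE.edg
  obtain ⟨p, y', t, hp, hy', hyv, ht, hyt⟩ := hP.exists_dir hx hxv (z := y - x)
    (sub_ne_zero.2 hne.symm) (fun l hl => by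
      rw [dotProduct_sub, mem_tight.1 hl]
      have := vertex_feasible hy l
      linarith) (fun q hq => hedg.one q hq)
  refine ⟨p, hp, ?_⟩
  have hyy : y = y' := by
    rcases lt_trichotomy t 1 with h | h | h
    · exact absurd (vertex_not_between hy' hx.1 hy.1 ht h hyt) hne
    · rw [hyt, h, one_smul]
      abel
    · have h5 : y = x + (1 / t) • (y' - x) := by
        rw [hyt, add_sub_cancel_left, smul_smul, one_div, inv_mul_cancel₀ ht.ne', one_smul]
        abel
      have h6 : (1 / t) < 1 := by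
        rw [div_lt_one ht]
        exact h
      have h7 := vertex_not_between hy hx.1 hy'.1 (by positivity) h6 h5
      rw [← h7, sub_self, smul_zero, add_zero] at h5
      exact absurd h5.symm hne
  rw [hyy]
  exact hyv

/-- there are no unbounded edges -/
theorem IsProduct.not_unbounded (hP : P.IsProduct g) {x : Fin n → ℝ} {v : Vtx (Val g)}
    (hxv : P.tight x = name v) : ¬ P.Unbounded x := by
  rintro ⟨hx, z, hz, hext⟩
  obtain ⟨h1, h2⟩ := ray_dir hx hext
  have hz0 : z ≠ 0 := by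
    rintro rfl
    rw [obj_eq, dotProduct_zero] at hz
    exact lt_irrefl _ hz
  obtain ⟨p, y, t, hp, hy, hyv, ht, hyt⟩ := hP.exists_dir hx hxv hz0 (fun l _ => h1 l) h2
  have h3 : x + (2 * t) • z ∈ P.feasible := hext.1 ⟨2 * t, by positivity, rfl⟩
  have h4 := vertex_not_between hy hx.1 h3 (s := 1 / 2) (by norm_num) (by norm_num) (by
    rw [hyt, add_sub_cancel_left, smul_smul]
    congr 2
    ring)
  have h5 : (2 * t) • z = 0 := by
    have : x + (2 * t) • z = x + 0 := by rw [add_zero]; exact h4.symm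
    exact add_left_cancel this
  rcases smul_eq_zero.1 h5 with h6 | h6
  · linarith
  · exact hz0 h6

/-- all vertices are vertices of the grid -/
theorem IsProduct.vertex (hP : P.IsProduct g) {y : Fin n → ℝ} (hy : P.Vertex y) :
    ∃ v : Vtx (Val g), P.tight y = name v := by
  classical
  -- maximise the sum of the rows that are tight at `y`
  let Q : LP m n := ⟨P.A, P.b, ∑ l ∈ P.tight y, P.A l⟩
  have hQ : Q.IsProduct g := hP
  have hobj : ∀ x, Q.obj x = ∑ l ∈ P.tight y, P.A l ⬝ᵥ x := by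
    intro x
    rw [obj_eq]
    show (∑ l ∈ P.tight y, P.A l) ⬝ᵥ x = _
    rw [sum_dotProduct]
  have hne : Nonempty (Vtx (Val g)) := ⟨fun i => ⟨(hP.1 i).choose, (hP.1 i).choose_spec⟩⟩
  have hex := fun v => hP.exists_vertex v
  choose x hx hxv using hex
  obtain ⟨v, _, hmax⟩ := Finset.exists_max_image (Finset.univ : Finset (Vtx (Val g)))
    (fun v => Q.obj (x v)) ⟨hne.some, Finset.mem_univ _⟩
  refine ⟨v, ?_⟩
  by_cases hyx : P.tight y ⊆ P.tight (x v)
  · rw [eq_of_tight hy hyx]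
    exact hxv v
  exfalso
  have hlt : Q.obj (x v) < Q.obj y := by
    rw [hobj, hobj]
    obtain ⟨l, hl, hlx⟩ := Finset.not_subset.1 hyx
    refine Finset.sum_lt_sum (fun l hl => ?_) ⟨l, hl, ?_⟩
    · rw [mem_tight.1 hl]
      exact vertex_feasible (hx v) l
    · rw [mem_tight.1 hl]
      exact lt_of_le_of_ne (vertex_feasible (hx v) l) fun h => hlx (mem_tight.2 h)
  have hxQ : Q.Vertex (x v) := hx v
  have hyQ : y ∈ Q.feasible := hy.1
  rcases improving_or hxQ hyQ (Finset.empty_subset _) (Finset.empty_subset _) hlt with h | ⟨w, hw, _⟩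
  · exact hQ.not_unbounded (v := v) (hxv v) h
  · obtain ⟨p, _, hwv⟩ := hQ.edge (v := v) (hxv v) hw.1
    have h1 : w = x (mv v p) := by
      have h2 : P.tight w = P.tight (x (mv v p)) := by
        rw [hxv]
        exact hwv
      exact eq_of_tight (P := P) hw.1.2.1 h2.le
    have h2 := hw.2
    rw [h1] at h2
    have h3 := hmax (mv v p) (Finset.mem_univ _)
    linarith

open Classical in
/-- the orientation of the grid that belongs to a structure on names -/
noncomputable def gri (o : Name m → Finset (Name m)) : Ori (Val g) := fun v =>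
  Finset.univ.filter fun p => p.2 ≠ v p.1 ∧ name (mv v p) ∈ o (name v)

theorem mem_gri {o : Name m → Finset (Name m)} {v : Vtx (Val g)} {p : Mv (Val g)} :
    p ∈ gri o v ↔ p.2 ≠ v p.1 ∧ name (mv v p) ∈ o (name v) := by
  classical
  simp [gri]

/-- the improving neighbours are neighbours in the grid -/
theorem IsProduct.mem_nview (hP : P.IsProduct g) {v : Vtx (Val g)} {T : Name m}
    (hT : T ∈ P.nview (name v)) : ∃ p ∈ gri P.nview v, name (mv v p) = T := by
  obtain ⟨x, hx, hf, hxv, hT'⟩ := LP.mem_nview.1 hT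
  obtain ⟨y, hy, rfl⟩ := mem_view.1 hT'
  obtain ⟨p, hp, hyv⟩ := hP.edge hxv hy.1
  rw [hyv] at hT ⊢
  exact ⟨p, mem_gri.2 ⟨hp, hT⟩, rfl⟩

theorem IsProduct.nview_empty (hP : P.IsProduct g) {T : Name m}
    (hT : ∀ v : Vtx (Val g), T ≠ name v) : P.nview T = ∅ := by
  rw [Finset.eq_empty_iff_forall_notMem]
  intro U hU
  obtain ⟨x, hx, _, hxT, _⟩ := LP.mem_nview.1 hU
  obtain ⟨v, hv⟩ := hP.vertex hx
  exact hT v (hxT.symm.trans hv)

theorem IsProduct.valid (hP : P.IsProduct g) :
    Pool.Agent.MP4d246d.Grid.Valid (gri (g := g) P.nview) fun v => P.val (name v) := by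
  refine ⟨fun h => (mem_gri.1 h).1, fun {v p} h => ?_, fun {v w} h => ?_⟩
  · obtain ⟨x, hx, _, hxv, hT⟩ := LP.mem_nview.1 (mem_gri.1 h).2
    obtain ⟨y, hy, hyv⟩ := mem_view.1 hT
    rw [← hxv, ← hyv, val_tight hx, val_tight hy.1.2.1]
    exact hy.2
  · obtain ⟨x, hx, hxv⟩ := hP.exists_vertex v
    obtain ⟨z, hz, hzw⟩ := hP.exists_vertex w
    rw [← hxv, ← hzw, val_tight hx, val_tight hz]
    by_contra hlt
    push Not at hlt
    have hK : P.tight x ∩ P.tight z ⊆ P.tight x := Finset.inter_subset_left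
    have hKz : P.tight x ∩ P.tight z ⊆ P.tight z := Finset.inter_subset_right
    have hub := hP.not_unbounded hxv
    rcases improving_or hx hz.1 hK hKz hlt with h1 | ⟨y, hy, hKy⟩
    · exact hub h1
    · obtain ⟨p, hp, hyv⟩ := hP.edge hxv hy.1
      have hpw : p.2 = w p.1 := by
        have h2 : p.2.1 ∉ P.tight x ∩ P.tight z := fun h3 => by
          have h4 := hKy h3
          rw [hyv] at h4
          exact val_not_mem_name_mv h4
        have h3 : p.2.1 ∉ name w := fun h4 => by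
          apply h2
          rw [Finset.mem_inter, hxv, hzw]
          exact ⟨val_mem_name hp, h4⟩
        rw [not_mem_name] at h3
        apply Subtype.ext
        rw [← h3]
        have h4 : g p.2.1 = p.1 := p.2.2
        rw [h4]
      have hpe : (⟨p.1, w p.1⟩ : Mv (Val g)) = p := by rw [← hpw]
      refine h p.1 (by rw [← hpw]; exact hp) ?_
      rw [hpe, mem_gri]
      refine ⟨hp, ?_⟩
      have hf : ¬ P.Final x := by
        rintro ⟨_, hopt | hunb⟩
        · have := hopt.2 z hz.1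
          linarith
        · exact hub hunb
      rw [← hxv, nview_tight hx hf, ← hyv]
      exact mem_view.2 ⟨y, hy, rfl⟩

end LP

end Pool.Agent.Simplex.Tableau
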