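import Pool.Agent.Lib.MP_4d246d_lc.Grid.Any

/-!
# One blind rule for all linear programs, polynomial on all products of simplices
-/

namespace Pool.Agent.Simplex.Tableau

open Matrix Pool.Agent.MP4d246d.Blind Pool.Agent.MP4d246d.Grid

namespace LP

variable {m n r : ℕ} {g : Fin m → Fin r} {P : LP m n}

/-- the groups can be renamed -/
theorem IsProduct.relabel (hP : P.IsProduct g) (π : Fin r ≃ Fin r) :
    P.IsProduct fun l => π (g l) := by
  refine ⟨π.surjective.comp hP.1, fun τ hτ => ?_⟩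
  obtain ⟨x, hx, hl⟩ := hP.2 (fun i => τ (π i)) fun i => π.injective (hτ (π i))
  refine ⟨x, hx, fun l => (hl l).trans ⟨fun h i => ?_, fun h i => h (π i)⟩⟩
  have := h (π.symm i)
  rwa [π.apply_symm_apply] at this

/-- the number of groups -/
theorem IsProduct.dim (hP : P.IsProduct g) : r + n = m := by
  classical
  let v : Vtx (Val g) := fun i => ⟨(hP.1 i).choose, (hP.1 i).choose_spec⟩
  obtain ⟨x, hx, hxv⟩ := hP.exists_vertex v
  have h1 : (name v).card + r = m := by
    have h2 : (name v)ᶜ = Finset.univ.image fun i => (v i).1 := by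
      ext l
      rw [Finset.mem_compl, not_mem_name, Finset.mem_image]
      constructor
      · intro h
        exact ⟨g l, Finset.mem_univ _, h⟩
      · rintro ⟨i, _, rfl⟩
        have h3 : g (v i).1 = i := (v i).2
        rw [h3]
    have h3 : (name v)ᶜ.card = r := by
      rw [h2, Finset.card_image_of_injective, Finset.card_univ, Fintype.card_fin]
      intro i j hij
      have h4 : g (v i).1 = i := (v i).2
      have h5 : g (v j).1 = j := (v j).2
      have h6 : (v i).1 = (v j).1 := hij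
      rw [← h4, ← h5, h6]
    have h4 := Finset.card_add_card_compl (name v)
    rw [h3, Fintype.card_fin] at h4
    exact h4
  have h2 : (name v).card ≤ n := by
    have hli : LinearIndependent ℝ fun l : {l // l ∈ name v} => P.A l.1 := by
      rw [linearIndependent_iff']
      intro s c hc l hl
      let p : Mv (Val g) := ⟨g l.1, ⟨l.1, rfl⟩⟩
      have hp : p.2 ≠ v p.1 := by
        intro h
        have h3 : l.1 ∉ name v := by
          rw [not_mem_name]
          exact (congrArg Subtype.val h).symm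
        exact h3 l.2
      obtain ⟨y, hy, hyv⟩ := hP.exists_vertex (mv v p)
      obtain ⟨h3, h4⟩ := dir_spec hp hxv hy hyv
      have h5 : (∑ i ∈ s, c i • P.A i.1) ⬝ᵥ (y - x) = 0 := by
        rw [hc, zero_dotProduct]
      rw [sum_dotProduct, Finset.sum_eq_single l] at h5
      · rw [smul_dotProduct, smul_eq_mul] at h5
        rcases mul_eq_zero.1 h5 with h6 | h6
        · exact h6
        · have h7 : P.A l.1 ⬝ᵥ (y - x) < 0 := h3
          rw [h6] at h7
          exact absurd h7 (lt_irrefl _)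
      · intro i _ hil
        rw [smul_dotProduct, h4 i.1 i.2 (fun h => hil (Subtype.ext h)), smul_zero]
      · intro h
        exact absurd hl h
    have h3 := hli.fintype_card_le_finrank
    rw [Fintype.card_coe] at h3
    simpa using h3
  have h3 : n ≤ (name v).card := by
    have hv := P.vertex_vtx.1 hx
    obtain ⟨f, hf, hli⟩ := CI.exists_basis P.A {l | P.A l ⬝ᵥ x = P.b l} (fun q hq =>
      hv.2 q fun l hl => hq l hl)
    have h4 := Finset.card_le_card_of_injOn (s := Finset.univ) (t := name v) f (fun k _ => by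
      rw [Finset.mem_coe, ← hxv]
      exact mem_tight.2 (hf k)) (fun k _ k' _ h => CI.li_inj hli h)
    simpa using h4
  omega

/-- the structures on names that come from products of simplices -/
noncomputable def anyFam (m n : ℕ) : Finset (Name m → Finset (Name m)) :=
  fil (fam m n) fun o => ∃ (g : Fin m → Fin (m - n)) (P : LP m n), P.IsProduct g ∧ P.nview = o

/-- enough phases -/
theorem any_win {q L : ℕ} (hq : 2 ≤ q) (hqm : m ≤ q) (hF : (fam m n).card < 2 ^ L) (V : Name m)
    (S : Finset (Name m)) :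
    Win (len (m - n) * ((q - 1) * L + m)) (cand (anyFam m n) [(V, S)]) V := by
  classical
  set F := cand (anyFam m n) [(V, S)] with hFdef
  have hsub : F ⊆ anyFam m n := fil_subset _ _
  have hFS : ∀ o ∈ F, o V = S := fun o ho => (mem_fil.1 ho).2 (V, S) (by simp)
  rcases F.eq_empty_or_nonempty with hFe | ⟨o₀, ho₀⟩
  · rw [hFe]
    exact Win.of_base _ (by simp)
  rcases S.eq_empty_or_nonempty with rfl | hS
  · exact Win.of_base _ hFS
  have hex : ∀ o ∈ F, ∃ (g : Fin m → Fin (m - n)) (P : LP m n) (v : Vtx (Val g)),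
      P.IsProduct g ∧ P.nview = o ∧ V = name v := by
    intro o ho
    obtain ⟨g, P, hP, hPo⟩ := (mem_fil.1 (hsub ho)).2
    by_contra hcon
    push Not at hcon
    have h1 := hP.nview_empty (T := V) fun v hv => hcon g P v hP hPo hv
    rw [hPo, hFS o ho] at h1
    exact hS.ne_empty h1
  obtain ⟨g₀, P₀, v₀, hP₀, hPo₀, hV₀⟩ := hex o₀ ho₀
  let h : Fin m → Option (Fin (m - n)) := fun l => if l ∈ V then none else some (g₀ l)
  have hh : ∀ l i, h l = some i → l ∉ V ∧ g₀ l = i := by
    intro l i hl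
    by_cases hlV : l ∈ V
    · simp [h, hlV] at hl
    · simp only [h, hlV, if_false] at hl
      exact ⟨hlV, Option.some.inj hl⟩
  have hin : ∀ i, (v₀ i).1 ∉ V := by
    intro i
    rw [hV₀, not_mem_name]
    have h1 : g₀ (v₀ i).1 = i := (v₀ i).2
    rw [h1]
  refine any_phase (n := n) hq hqm _ ((q - 1) * L) m h F V rfl ?_ (fun o ho => ?_) ?_ ⟨S, hFS⟩ ?_
  · calc (locked h).card ≤ (Finset.univ : Finset (Fin m)).card :=
        Finset.card_le_card (Finset.subset_univ _)
      _ = m := by simp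
  · obtain ⟨g, P, v, hP, hPo, hV⟩ := hex o ho
    have hout : ∀ l, l ∉ V → (v (g l)).1 = l := fun l hl => by
      rw [hV, not_mem_name] at hl
      exact hl
    have hout₀ : ∀ l, l ∉ V → (v₀ (g₀ l)).1 = l := fun l hl => by
      rw [hV₀, not_mem_name] at hl
      exact hl
    have hin' : ∀ i, (v i).1 ∉ V := by
      intro i
      rw [hV, not_mem_name]
      have h1 : g (v i).1 = i := (v i).2
      rw [h1]
    let π : Fin (m - n) ≃ Fin (m - n) :=
      { toFun := fun i => g₀ (v i).1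
        invFun := fun j => g (v₀ j).1
        left_inv := fun i => by
          show g (v₀ (g₀ (v i).1)).1 = i
          rw [hout₀ _ (hin' i)]
          exact (v i).2
        right_inv := fun j => by
          show g₀ (v (g (v₀ j).1)).1 = j
          rw [hout _ (hin j)]
          exact (v₀ j).2 }
    refine ⟨fun l => π (g l), P, fun l i hl => ?_, hP.relabel π, hPo⟩
    obtain ⟨h1, h2⟩ := hh l i hl
    show g₀ (v (g l)).1 = i
    rw [hout l h1, h2]
  · refine ⟨fun i => ⟨(v₀ i).1, ?_⟩, ?_⟩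
    · have h1 : g₀ (v₀ i).1 = i := (v₀ i).2
      simp only [h, hin i, if_false, h1]
    · refine hV₀.trans ?_
      ext l
      rw [mem_kname, mem_name]
  · obtain ⟨s, rfl⟩ : ∃ s, q = s + 1 := ⟨q - 1, by omega⟩
    have hs : 1 ≤ s := by omega
    rw [Nat.add_sub_cancel]
    have h1 := (Finset.card_le_card (hsub.trans (fil_subset _ _))).trans_lt hF
    have h2 : 0 < s ^ (s * L) := by positivity
    calc F.card * s ^ (s * L) < 2 ^ L * s ^ (s * L) :=
          Nat.mul_lt_mul_of_pos_right h1 h2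
      _ = (2 * s ^ s) ^ L := by rw [mul_pow, ← pow_mul]
      _ ≤ ((s + 1) ^ s) ^ L := Nat.pow_le_pow_left (two_mul_pow_le hs) L
      _ = (s + 1) ^ (s * L) := by rw [← pow_mul]

theorem any_bound (hn : 0 < n) (hnm : n ≤ m) :
    len (m - n) * ((m + 1) * ((m * n + (m + n)) * (Nat.size m * (n + 3) + 3) + 1) + m) ≤
      88 * (m - n) ^ 2 * m ^ 2 * n ^ 2 * Nat.size m := by
  rcases Nat.eq_zero_or_pos (m - n) with h0 | h0
  · rw [h0]
    simp [len]
  have hm : 2 ≤ m := by omega
  set j := Nat.size m with hj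
  set r := m - n with hr
  have hj1 : 1 ≤ j := Nat.size_pos.2 (by omega)
  have h5 : m * n + (m + n) ≤ 3 * (m * n) := by nlinarith
  have h6 : j * (n + 3) + 3 ≤ 7 * (j * n) := by nlinarith
  have h7 : (m * n + (m + n)) * (j * (n + 3) + 3) + 2 ≤ 22 * (m * n * (j * n)) := by
    have h8 := Nat.mul_le_mul h5 h6
    have h9 : 2 * 1 ≤ m * n * (j * n) :=
      Nat.mul_le_mul (hm.trans (Nat.le_mul_of_pos_right _ hn)) (Nat.mul_pos hj1 hn)
    nlinarith
  calc len r * ((m + 1) * ((m * n + (m + n)) * (j * (n + 3) + 3) + 1) + m)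
      ≤ len r * ((m + 1) * ((m * n + (m + n)) * (j * (n + 3) + 3) + 2)) :=
        Nat.mul_le_mul_left _ (by nlinarith)
    _ ≤ (2 * r ^ 2) * ((2 * m) * (22 * (m * n * (j * n)))) :=
        Nat.mul_le_mul (len_le r) (Nat.mul_le_mul (by omega) h7)
    _ = 88 * r ^ 2 * m ^ 2 * n ^ 2 * j := by ring

theorem seen_length (P : LP m n) (x : ℕ → Fin n → ℝ) (t : ℕ) : (P.seen x t).length = t + 1 := by
  induction t with
  | zero => rfl
  | succ t ih =>
    show (P.seen x t).length + 1 = _
    rw [ih]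

theorem take_seen (P : LP m n) (x : ℕ → Fin n → ℝ) (N s : ℕ) :
    (P.seen x (N + s)).take (s + 1) = P.seen (fun i => x (N + i)) s := by
  induction s with
  | zero =>
    obtain ⟨l, hl⟩ := P.seen_head x N
    show (P.seen x N).take 1 = _
    rw [hl]
    simp [seen]
  | succ s ih =>
    show ((P.tight (x (N + s + 1)), P.view (x (N + s + 1))) :: P.seen x (N + s)).take (s + 1 + 1) = _
    rw [List.take_succ_cons, ih]
    rfl

end LP

open Classical in
/-- first one rule, then, with a fresh memory, another one -/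
noncomputable def BlindRule.thenRule {m : ℕ} (ρ₁ ρ₂ : BlindRule m) (N : ℕ) : BlindRule m where
  pick l := if l.length ≤ N then ρ₁.pick l else ρ₂.pick (l.take (l.length - N))
  pick_mem v S l hS := by
    show (if ((v, S) :: l).length ≤ N then ρ₁.pick ((v, S) :: l)
      else ρ₂.pick (((v, S) :: l).take (((v, S) :: l).length - N))) ∈ S
    split_ifs with h
    · exact ρ₁.pick_mem v S l hS
    · rw [List.length_cons] at h ⊢
      rw [show l.length + 1 - N = (l.length - N) + 1 by omega, List.take_succ_cons]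
      exact ρ₂.pick_mem v S _ hS

namespace LP

variable {m n r : ℕ} {g : Fin m → Fin r} {P : LP m n}

theorem run_then {ρ₁ ρ₂ : BlindRule m} {N k : ℕ} {x : ℕ → Fin n → ℝ} (hk : k ≤ N)
    (h : P.Run ρ₁ x k) : P.Run (ρ₁.thenRule ρ₂ N) x k := by
  refine ⟨h.pivot, fun t ht => ?_, h.go⟩
  show _ = if (P.seen x t).length ≤ N then ρ₁.pick (P.seen x t) else _
  rw [seen_length, if_pos (by omega)]
  exact h.rule t ht

theorem run_then' {ρ₁ ρ₂ : BlindRule m} {N k₂ : ℕ} {x x₂ : ℕ → Fin n → ℝ}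
    (h : P.Run ρ₁ x N) (h₂ : P.Run ρ₂ x₂ k₂) (h0 : x₂ 0 = x N) :
    P.Run (ρ₁.thenRule ρ₂ N) (fun t => if t ≤ N then x t else x₂ (t - N)) (N + k₂) := by
  set X : ℕ → Fin n → ℝ := fun t => if t ≤ N then x t else x₂ (t - N) with hX
  have hX1 : ∀ t ≤ N, X t = x t := fun t ht => if_pos ht
  have hX2 : ∀ s, X (N + s) = x₂ s := by
    intro s
    rcases Nat.eq_zero_or_pos s with rfl | hs
    · rw [Nat.add_zero, hX1 N le_rfl, h0]
    · show (if N + s ≤ N then x (N + s) else x₂ (N + s - N)) = x₂ s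
      rw [if_neg (by omega), Nat.add_sub_cancel_left]
  refine ⟨fun t ht => ?_, fun t ht => ?_, fun t ht => ?_⟩
  · rcases Nat.lt_or_ge t N with h1 | h1
    · rw [hX1 t h1.le, hX1 (t + 1) h1]
      exact h.pivot t h1
    · obtain ⟨s, rfl⟩ : ∃ s, t = N + s := ⟨t - N, by omega⟩
      rw [hX2, Nat.add_assoc, hX2]
      exact h₂.pivot s (by omega)
  · show _ = if (P.seen X t).length ≤ N then ρ₁.pick (P.seen X t)
      else ρ₂.pick ((P.seen X t).take ((P.seen X t).length - N))
    rw [seen_length]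
    rcases Nat.lt_or_ge t N with h1 | h1
    · rw [if_pos (by omega), hX1 (t + 1) h1, P.seen_congr fun i hi => hX1 i (by omega)]
      exact h.rule t h1
    · obtain ⟨s, rfl⟩ : ∃ s, t = N + s := ⟨t - N, by omega⟩
      rw [if_neg (by omega), Nat.add_assoc, hX2, ← Nat.add_assoc,
        show N + s + 1 - N = s + 1 by omega, take_seen,
        P.seen_congr fun i _ => hX2 i]
      exact h₂.rule s (by omega)
  · rcases Nat.lt_or_ge t N with h1 | h1
    · rw [hX1 t h1.le]
      exact h.go t h1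
    · obtain ⟨s, rfl⟩ : ∃ s, t = N + s := ⟨t - N, by omega⟩
      rw [hX2]
      exact h₂.go s (by omega)

theorem le_pathBound (m n : ℕ) : m ≤ pathBound m n := by
  have h1 : m < 2 ^ Nat.size m := Nat.lt_size_self m
  have h2 : 1 ≤ (n + Nat.size m).choose (Nat.size m) :=
    Nat.choose_pos (Nat.le_add_left _ _)
  calc m ≤ 2 ^ Nat.size m * 1 := by omega
    _ ≤ _ := Nat.mul_le_mul_left _ h2

/-- **Main theorem.** -/
theorem one_main (m n : ℕ) : ∃ ρ : BlindRule m, ∀ (P : LP m n) (x₀ : Fin n → ℝ), P.Vertex x₀ →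
    ∃ (k : ℕ) (x : ℕ → Fin n → ℝ),
      k ≤ 176 * m ^ 2 * n ^ 2 * Nat.size m * pathBound m n ^ 2 ∧
      (∀ (r : ℕ) (g : Fin m → Fin r), P.IsProduct g →
        k ≤ 88 * r ^ 2 * m ^ 2 * n ^ 2 * Nat.size m) ∧
      x 0 = x₀ ∧ P.Run ρ x k ∧ P.Final (x k) ∧
      ∀ k' x', x' 0 = x₀ → P.Run ρ x' k' → k' ≤ k ∧ ∀ i ≤ k', x' i = x i := by
  classical
  by_cases hnm : 0 < n ∧ n ≤ m
  swap
  · refine ⟨⟨pickOf ∅ 0 ∅, pickOf_mem ∅ 0 ∅⟩, fun P x₀ hx₀ => ?_⟩
    have h1 : n ≤ m := le_of_vertex hx₀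
    have hn : n = 0 := by omega
    subst hn
    have hf : P.Final x₀ := ⟨hx₀, Or.inl ⟨hx₀.1, fun y _ => by simp [obj]⟩⟩
    have hrun : P.Run (⟨pickOf ∅ 0 ∅, pickOf_mem ∅ 0 ∅⟩ : BlindRule m) (fun _ => x₀) 0 :=
      ⟨fun t ht => absurd ht (Nat.not_lt_zero t), fun t ht => absurd ht (Nat.not_lt_zero t),
        fun t ht => absurd ht (Nat.not_lt_zero t)⟩
    exact ⟨0, fun _ => x₀, Nat.zero_le _, fun _ _ _ => Nat.zero_le _, rfl, hrun, hf,
      fun k' x' h0 h' => Run.unique h0.symm hrun hf h'⟩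
  obtain ⟨hn, hnm⟩ := hnm
  set L := (m * n + (m + n)) * (Nat.size m * (n + 3) + 3) + 1 with hL
  set N := len (m - n) * ((m + 2 - 1) * L + m) with hN
  have hwin : ∀ v S, Win N (cand (anyFam m n) [(v, S)]) v := fun v S =>
    any_win (q := m + 2) (by omega) (by omega) (card_fam_lt hnm) v S
  have hNb : N ≤ 88 * (m - n) ^ 2 * m ^ 2 * n ^ 2 * Nat.size m := by
    rw [hN, show m + 2 - 1 = m + 1 by omega]
    exact any_bound hn hnm
  obtain ⟨ρ₂, hρ₂⟩ := main m n
  set ρ₁ : BlindRule m := ⟨pickOf ∅ N (anyFam m n), pickOf_mem ∅ N (anyFam m n)⟩ with hρ₁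
  refine ⟨ρ₁.thenRule ρ₂ N, fun P x₀ hx₀ => ?_⟩
  obtain ⟨k, x, hkN, hx0, hxk, hrun, hcase⟩ := run_of_nrun (ρ := ρ₁) hx₀ N
  have hprod : ∀ (r : ℕ) (g : Fin m → Fin r), P.IsProduct g → P.Final (x k) := by
    intro r g hP
    obtain rfl : r = m - n := by
      have := hP.dim
      omega
    rcases hcase with ⟨hf, _⟩ | ⟨rfl, hf, hseen⟩
    · exact hf
    · exfalso
      obtain ⟨v, l, h1, h2⟩ := pickOf_spec ∅ N (anyFam m n) hwin P.nview
        (mem_fil.2 ⟨Finset.mem_filter.2 ⟨Finset.mem_univ _, P, rfl⟩, g, P, hP, rfl⟩) (P.tight x₀)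
      obtain ⟨l', h3⟩ := P.seen_head x N
      have h4 : (v, P.nview v) :: l = (P.tight (x N), P.view (x N)) :: l' := by
        rw [← h3, ← hseen]
        exact h1.symm
      have h5 : P.view (x N) = ∅ := by
        have h6 := (List.cons.inj h4).1
        have h7 := (Prod.ext_iff.1 h6).2
        simp only at h7
        rw [← h7]
        exact h2
      have h8 := view_nonempty hxk hf
      rw [h5] at h8
      exact Finset.not_nonempty_empty h8
  have hNle : N ≤ 88 * m ^ 2 * n ^ 2 * Nat.size m * pathBound m n ^ 2 := by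
    have h1 : (m - n) ^ 2 ≤ pathBound m n ^ 2 :=
      Nat.pow_le_pow_left ((Nat.sub_le m n).trans (le_pathBound m n)) 2
    calc N ≤ 88 * (m - n) ^ 2 * m ^ 2 * n ^ 2 * Nat.size m := hNb
      _ = 88 * m ^ 2 * n ^ 2 * Nat.size m * (m - n) ^ 2 := by ring
      _ ≤ _ := Nat.mul_le_mul_left _ h1
  by_cases hf : P.Final (x k)
  · refine ⟨k, x, ?_, fun r g hP => ?_, hx0, run_then hkN hrun, hf, fun k' x' h0 h' =>
      Run.unique (hx0.trans h0.symm) (run_then hkN hrun) hf h'⟩
    · calc k ≤ 88 * m ^ 2 * n ^ 2 * Nat.size m * pathBound m n ^ 2 := hkN.trans hNle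
        _ ≤ 88 * m ^ 2 * n ^ 2 * Nat.size m * pathBound m n ^ 2 +
          88 * m ^ 2 * n ^ 2 * Nat.size m * pathBound m n ^ 2 := Nat.le_add_left _ _
        _ = _ := by ring
    · obtain rfl : r = m - n := by
        have := hP.dim
        omega
      exact hkN.trans hNb
  · have hkN' : k = N := by
      rcases hcase with ⟨hf', _⟩ | ⟨h1, _, _⟩
      · exact absurd hf' hf
      · exact h1
    rw [hkN'] at hrun hxk
    obtain ⟨k₂, x₂, hk₂, hx₂, hrun₂, hf₂, _⟩ := hρ₂ P (x N) hxk
    have hR := run_then' (ρ₁ := ρ₁) (ρ₂ := ρ₂) hrun hrun₂ hx₂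
    have hX0 : (fun t => if t ≤ N then x t else x₂ (t - N)) 0 = x₀ := by
      show (if 0 ≤ N then x 0 else x₂ (0 - N)) = x₀
      rw [if_pos (Nat.zero_le _), hx0]
    have hXf : P.Final ((fun t => if t ≤ N then x t else x₂ (t - N)) (N + k₂)) := by
      show P.Final (if N + k₂ ≤ N then x (N + k₂) else x₂ (N + k₂ - N))
      rcases Nat.eq_zero_or_pos k₂ with h0 | h0
      · subst h0
        rw [Nat.add_zero, if_pos le_rfl, ← hx₂]
        exact hf₂
      · rw [if_neg (by omega), Nat.add_sub_cancel_left]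
        exact hf₂
    refine ⟨N + k₂, fun t => if t ≤ N then x t else x₂ (t - N), ?_,
      fun r g hP => absurd (hprod r g hP) hf, hX0, hR, hXf,
      fun k' x' h0 h' => Run.unique (hX0.trans h0.symm) hR hXf h'⟩
    calc N + k₂ ≤ 88 * m ^ 2 * n ^ 2 * Nat.size m * pathBound m n ^ 2 +
          88 * m ^ 2 * n ^ 2 * Nat.size m * pathBound m n ^ 2 := Nat.add_le_add hNle hk₂
      _ = _ := by ring

end LP

end Pool.Agent.Simplex.Tableau
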